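import Pool.Agent.W751.CD.Stm

set_option autoImplicit false

open Polynomial Filter Topology

namespace Pool.Agent.W52.CD.Conj

open Pool.Agent.W751.CD

theorem hyp_conj (S G : ℂ[X]) (κ : ℂ) (hκ : κ ≠ 0) (h : ∀ w, S.eval (κ * w) = κ * G.eval w)
    (hG : Hyp G) : Hyp S := by
  have hcomp : S.comp (C κ * X) = C κ * G := by
    apply Polynomial.funext
    intro w
    rw [eval_comp]
    simp [h]
  have hder : ∀ w, (derivative S).eval (κ * w) = (derivative G).eval w := by
    intro w
    have h1 := congrArg (fun p : ℂ[X] => (derivative p).eval w) hcomp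
    simp only [derivative_comp, derivative_C_mul, derivative_X, mul_one, eval_mul, eval_C,
      eval_comp, eval_X] at h1
    exact mul_left_cancel₀ hκ h1
  have hit : ∀ (k : ℕ) (w : ℂ), (fun y : ℂ => S.eval y)^[k] (κ * w) =
      κ * (fun y : ℂ => G.eval y)^[k] w := by
    intro k
    induction k with
    | zero => intro w; rfl
    | succ k ih =>
      intro w
      rw [Function.iterate_succ_apply, Function.iterate_succ_apply, h, ih]
  intro c hc
  obtain ⟨w, rfl⟩ : ∃ w, c = κ * w := ⟨κ⁻¹ * c, by rw [← mul_assoc, mul_inv_cancel₀ hκ, one_mul]⟩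
  rw [hder] at hc
  rcases hG w hc with h1 | ⟨x, hx1, hx2, hx3⟩
  · left
    unfold Esc at h1 ⊢
    have h2 : (fun k : ℕ => ‖(fun y : ℂ => S.eval y)^[k] (κ * w)‖) =
        fun k => ‖κ‖ * ‖(fun y : ℂ => G.eval y)^[k] w‖ := by
      funext k
      rw [hit, norm_mul]
    rw [h2]
    exact h1.const_mul_atTop (norm_pos_iff.2 hκ)
  · right
    refine ⟨κ * x, by rw [h, hx1], ?_, ?_⟩
    · rw [Polynomial.deriv] at hx2 ⊢
      rw [hder]
      exact hx2
    · have h2 : (fun k : ℕ => (fun y : ℂ => S.eval y)^[k] (κ * w)) =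
          fun k => κ * (fun y : ℂ => G.eval y)^[k] w := by
        funext k
        rw [hit]
      rw [h2]
      exact hx3.const_mul κ

theorem conj_holds : S_CONJ := by
  intro N hN z a κ hκ
  have h : ∀ w, (C a * P fun i => κ * z i).eval (κ * w) =
      κ * (C (a * κ ^ (N - 1)) * P z).eval w := by
    intro w
    unfold P
    rw [eval_mul, eval_mul, eval_C, eval_C, eval_prod, eval_prod]
    have h1 : ∏ i : Fin N, (X - C (κ * z i)).eval (κ * w) =
        κ ^ N * ∏ i : Fin N, (X - C (z i)).eval w := by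
      have : ∀ i : Fin N, (X - C (κ * z i)).eval (κ * w) = κ * (X - C (z i)).eval w := by
        intro i
        simp only [eval_sub, eval_X, eval_C]
        ring
      simp only [this]
      rw [Finset.prod_mul_distrib]
      simp
    rw [h1]
    obtain ⟨M, rfl⟩ : ∃ M, N = M + 1 := ⟨N - 1, by omega⟩
    rw [Nat.add_sub_cancel, pow_succ]
    ring
  have h' : ∀ w, (C (a * κ ^ (N - 1)) * P z).eval (κ⁻¹ * w) =
      κ⁻¹ * (C a * P fun i => κ * z i).eval w := by
    intro w
    have h1 := h (κ⁻¹ * w)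
    rw [← mul_assoc κ κ⁻¹ w, mul_inv_cancel₀ hκ, one_mul] at h1
    rw [h1, ← mul_assoc, inv_mul_cancel₀ hκ, one_mul]
  exact ⟨hyp_conj _ _ κ⁻¹ (inv_ne_zero hκ) h', hyp_conj _ _ κ hκ h⟩

end Pool.Agent.W52.CD.Conj
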